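import Pool.Agent.CUBH.Main3
import Pool.Agent.CUB.Asm
import Pool.Agent.Lib_helper55.Beil.Cover

/-!
# CUBT: one nonzero algebraic class on each hypersurface with a Tate class is enough

`Gap T X`: if all cycle classes of `X` are zero then `X` has no nonzero classes which are invariant
under Frobenius.  This passes from the hypersurface `y ^ 2 - y = ∑ t_j f_j` to `f_1 = ... = f_m = 0`
(`gap_red`), so it holds for all affine varieties if it holds for the smooth hypersurfaces of
hypergraphs (`gap_aff`), and this gives the Tate conjecture with semisimplicity for all varieties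
(`surj_of_gap`).
-/

set_option autoImplicit false

open Polynomial CategoryTheory AlgebraicGeometry

namespace CUB

open Pool.Agent.Lib_helper55.Beil

universe v

section

variable {k : Type} [Field k] {E : Type} [Field E] {i : ℕ}

/-- If there is a nonzero class in `H_2i` invariant under Frobenius, then some `i`-dimensional
integral closed subvariety has a nonzero class. -/
def Gap (T : Homology.{v} k E i) (X : Var k) : Prop :=
  (∃ m : T.H (2 * i) X, T.F (2 * i) X m = m ∧ m ≠ 0) → ∃ x : Pts i X, T.cl X x ≠ 0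

lemma gap_iff (T : Homology.{v} k E i) (X : Var k) : Gap T X ↔
    ((∀ x : Pts i X, T.cl X x = 0) → ∀ m : T.H (2 * i) X, T.F (2 * i) X m = m → m = 0) := by
  unfold Gap
  constructor
  · intro h h1 m hm
    by_contra h2
    obtain ⟨x, hx⟩ := h ⟨m, hm, h2⟩
    exact hx (h1 x)
  · rintro h ⟨m, hm, h2⟩
    by_contra h3
    push Not at h3
    exact h2 (h h3 m hm)

/-- Surjectivity of the cycle class map gives `Gap`. -/
lemma gap_of_surj (T : Homology.{v} k E i) (X : Var k) (h : T.Surj X) : Gap T X := by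
  rw [gap_iff]
  exact fun h1 => T.inv_zero_of_surj h h1

lemma linComb_zero (T : Homology.{v} k E i) (X : Var k) (h : ∀ x : Pts i X, T.cl X x = 0)
    (c : Pts i X →₀ E) : Finsupp.linearCombination E (T.cl X) c = 0 := by
  have h1 : T.cl X = fun _ => 0 := funext h
  rw [Finsupp.linearCombination_apply, h1]
  simp

lemma cls_zero_iff (T : ∀ i : ℕ, Homology.{v} k E i) (i : ℕ) (A : Type) [CommRing A] [Algebra k A]
    [Algebra.FiniteType k A] :
    (∀ x : Pts i (aff k A), (T i).cl (aff k A) x = 0) ↔ ∀ c : RP k A i →₀ E, cls T i c = 0 := by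
  constructor
  · intro h c
    exact linComb_zero (T i) _ h _
  · intro h x
    obtain ⟨c, hc⟩ := (cyE (k := k) (A := A) E i).surjective (Finsupp.single x 1)
    have h1 := h c
    rw [cls_eq, hc, Finsupp.linearCombination_single, one_smul] at h1
    exact h1

lemma gap_of_viso (T : Homology.{v} k E i) {X Y : Var k} (s : VIso X Y) (h : Gap T X) :
    Gap T Y := by
  rintro ⟨m, hm, hm0⟩
  obtain ⟨m', hm'⟩ := (push_viso_bijective T (2 * i) s).surjective m
  have hF : T.P (2 * i) s.cl (T.F (2 * i) X m') = T.F (2 * i) Y (T.P (2 * i) s.cl m') :=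
    T.equivariant.1 (2 * i) X Y s.cl m'
  obtain ⟨x, hx⟩ := h ⟨m', by
    apply (push_viso_bijective T (2 * i) s).injective
    rw [hF, hm', hm], by
    rintro rfl
    exact hm0 (hm'.symm.trans (map_zero (T.push (2 * i) s.cl)))⟩
  refine ⟨s.pts i x, fun h1 => hx ?_⟩
  apply (push_viso_bijective T (2 * i) s).injective
  have h2 : T.P (2 * i) s.cl (T.cl X x) = T.cl Y (s.pts i x) :=
    T.push_cl s.cl x (s.pts i x).2
  rw [h2, h1]
  exact (map_zero (T.push (2 * i) s.cl)).symm

lemma gap_viso (T : Homology.{v} k E i) {X Y : Var k} (s : VIso X Y) : Gap T X ↔ Gap T Y :=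
  ⟨gap_of_viso T s, gap_of_viso T s.symm⟩

end

section Red

variable {k : Type} [Field k] {E : Type} [Field E] (T : ∀ i : ℕ, Homology.{v} k E i)
  {R R' : Type} [CommRing R] [CommRing R'] [Algebra k R] [Algebra k R']
  [Algebra.FiniteType k R] [Algebra.FiniteType k R']

/-- `Gap` passes from the hypersurface `y ^ 2 - y = ∑ t_j f_j` to `f_1 = ... = f_m = 0`. -/
theorem gap_red (X : Extra T) [PerfectField k] [CharZero E] (i m : ℕ) (f : Fin (m + 1) → R)
    (ψ : R →ₐ[k] R') (hψ : Function.Surjective ψ)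
    (hk : RingHom.ker ψ.toRingHom = Ideal.span (Set.range f)) (h : ∀ j, ψ (f j) = 0)
    (hzr : ∀ z : RP k R i →₀ E, z ∈ rat k R E i)
    (hG : Gap (T (i + (m + 1))) (aff k (VR R f))) : Gap (T i) (aff k R') := by
  rw [gap_iff] at hG ⊢
  intro h0
  rw [cls_zero_iff] at h0
  obtain ⟨lam, hlam⟩ := hline T X Asm.s_PLIN Asm.s_GX Asm.s_GCO Asm.s_FPX R' i (m + 1)
  have hd : ∀ (z : RP k R' i →₀ E) (d : RP k (MvPolynomial (Fin (m + 1)) R') (i + (m + 1)) →₀ E),
      IsPull k E (m + 1) (mvC k R' (m + 1)) z d → cls T (i + (m + 1)) d = 0 := by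
    intro z d hzd
    rw [← hlam.cls z d hzd, h0, map_zero]
  have h1 : ∀ ζ : RP k (VR R f) (i + (m + 1)) →₀ E, cls T (i + (m + 1)) ζ = 0 := by
    intro ζ
    obtain ⟨z₀, z₁, d₀, d₁, hd₀, hd₁, hrat⟩ := Asm.s_CSU k R R' E m i f ψ hψ h hk hzr ζ
    have e1 := cls_rat T (i + (m + 1)) _ hrat
    have e2 := cls_push T (i + (m + 1)) (sheet ψ f h false) (sheet_surjective ψ hψ f h false) d₀
    have e3 := cls_push T (i + (m + 1)) (sheet ψ f h true) (sheet_surjective ψ hψ f h true) d₁
    rw [hd z₀ d₀ hd₀] at e2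
    rw [hd z₁ d₁ hd₁] at e3
    have e4 : (T (i + (m + 1))).P (2 * (i + (m + 1)))
        (clo (sheet ψ f h false) (sheet_surjective ψ hψ f h false)) 0 = 0 := map_zero _
    have e5 : (T (i + (m + 1))).P (2 * (i + (m + 1)))
        (clo (sheet ψ f h true) (sheet_surjective ψ hψ f h true)) 0 = 0 := map_zero _
    rw [map_sub, map_sub, ← e2, ← e3, e4, e5, sub_zero, sub_zero] at e1
    exact e1
  have hS : (T (i + (m + 1))).Surj (aff k (VR R f)) := by
    intro a ha
    exact ⟨0, by rw [map_zero]; exact (hG ((cls_zero_iff T _ _).mpr h1) a ha).symm⟩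
  have hS' := red_surj T X Asm.s_KERQ Asm.s_VRL Asm.s_PLIN Asm.s_GX Asm.s_GCO Asm.s_FPX Asm.s_CSU
    i m f ψ hψ hk h hzr hS
  exact (T i).inv_zero_of_surj hS' ((cls_zero_iff T i R').mpr h0)

end Red

/-- For each algebra of finite type there is a smooth hypersurface of a sparse hypergraph from which
`Gap` passes to it. -/
theorem gap_core (k E : Type) [Field k] [Finite k] [Field E] [CharZero E]
    (B : Set k) (hB : Subring.closure B = ⊤)
    (T : ∀ i : ℕ, Homology.{v} k E i) (hT : Extra T) (i : ℕ) (A : Type) [CommRing A]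
    [Algebra k A] [Algebra.FiniteType k A] :
    ∃ (n : ℕ) (H : Finset (Finset (Fin (3 * n)))) (c : Fin (3 * n) → k),
      Sparse H ∧ (∀ v, c v = 0 ∨ c v ∈ B) ∧ Smooth (cubic (hyp H c)).f ∧
      (Gap (T (2 * n)) (cubic (hyp H c)) → Gap (T i) (aff k A)) := by
  obtain ⟨n, N, m, h3n, h2, hiN, f', φ', H', b', hφ', hk', hf', hc'⟩ :=
    HG.exists_good k A B hB (Set.toFinite B) i
  obtain ⟨H, c, h1, h0, ⟨e⟩⟩ := HG.cuv3 k B N (m + 1) n h3n f' H' b' hf' hc'
  have hs : Smooth (cubic (hyp H c)).f := Asm.s_SMI k _ _ e.symm (Asm.s_SMO k _ _ f')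
  have h' : ∀ j, φ' (f' j) = 0 := by
    intro j
    have h3 : f' j ∈ RingHom.ker φ'.toRingHom := by
      rw [hk']
      exact Ideal.subset_span ⟨j, rfl⟩
    exact h3
  refine ⟨n, H, c, h1, h0, hs, fun h => ?_⟩
  refine gap_red T hT i m f' φ' hφ' hk' h' (fun z => Asm.s_ZPOL k E N i hiN z) ?_
  rw [h2] at h
  exact (gap_viso (T _) (viso e)).mpr h

/-- From smooth hypersurfaces of sparse hypergraphs to all affine varieties. -/
theorem gap_aff (k E : Type) [Field k] [Finite k] [Field E] [CharZero E]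
    (B : Set k) (hB : Subring.closure B = ⊤)
    (T : ∀ i : ℕ, Homology.{v} k E i) (hT : Extra T)
    (h : ∀ (n : ℕ) (H : Finset (Finset (Fin (3 * n)))) (c : Fin (3 * n) → k), Sparse H →
      (∀ v, c v = 0 ∨ c v ∈ B) → Smooth (cubic (hyp H c)).f →
      Gap (T (2 * n)) (cubic (hyp H c)))
    (i : ℕ) (X : Var k) (hX : IsAffine X.X) : Gap (T i) X := by
  obtain ⟨A, _, _, _, ⟨s⟩⟩ := exists_aff X
  obtain ⟨n, H, c, h1, h2, h3, h4⟩ := gap_core k E B hB T hT i A
  exact (gap_viso (T i) s).mp (h4 (h n H c h1 h2 h3))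

/-- `Gap` for all affine varieties gives surjectivity and semisimplicity for all varieties. -/
theorem surj_of_gap (k E : Type) [Field k] [Finite k] [Field E] (i : ℕ) (T : Homology.{v} k E i)
    (hT : ∀ X : Var k, IsAffine X.X → Gap T X) (X : Var k) : T.Surj X ∧ T.Semisimple X := by
  have hc : T.CoverVanish := by
    intro d U _ _ _ hcov h0
    obtain ⟨g, hg, -, -⟩ := hcov
    have hU : IsAffine U.X := isAffine_of_isAffineHom g
    exact ⟨U, ⟨𝟙 _, Category.id_comp _, inferInstance⟩, inferInstance,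
      (gap_iff T U).mp (hT U hU) h0⟩
  exact ⟨T.surj_of_good X (T.good_of_cover hc X), T.semisimple_of_good X (T.good_of_cover hc X)⟩

end CUB
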